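import Pool.Agent.H677_SC.Basic

set_option autoImplicit false

open Finset

namespace Pool.Agent.Results.MP_025f5d_nt.PartBFailsAtEleven

/-- The Pell numbers. -/
def pell : ℕ → ℤ
  | 0 => 0
  | 1 => 1
  | n + 2 => 2 * pell (n + 1) + pell n

/-- `S_2(p)`. -/
def S2 (p : ℕ) : ℚ := ∑ k ∈ range p, (k : ℚ) * (pell k : ℚ) / (-8) ^ k * ((2 * k).choose k : ℚ) ^ 2

/-- `u ≡ v` modulo `p ^ m` for rationals with denominator prime to `p`: the difference is
`p ^ m` times a rational number whose denominator is not divisible by `p`. -/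
def Congr (p m : ℕ) (u v : ℚ) : Prop := ∃ r : ℚ, ¬ p ∣ r.den ∧ u - v = (p : ℚ) ^ m * r

/-- Part (b) of Q1 fails for `p = 11 = 3 ^ 2 + 2 * 1 ^ 2`, `x = 3`. The sign `(-1) ^ ((x + 1) / 2)`
is written as `Int.negOnePow ((x + 1) / 2)`. -/
theorem result : ¬ ∀ p : ℕ, p.Prime → 3 < p → (p % 8 = 1 ∨ p % 8 = 3) →
    ∀ x y : ℤ, (p : ℤ) = x ^ 2 + 2 * y ^ 2 → (x % 8 = 1 ∨ x % 8 = 3) →
      Congr p 2 (S2 p) ((((((x + 1) / 2).negOnePow : ℤˣ) : ℤ) : ℚ) / 2 * (x + p / (2 * x))) := by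
  intro h
  obtain ⟨r, hr, he⟩ := h 11 (by norm_num) (by norm_num) (by norm_num) 3 1 (by norm_num)
    (by norm_num)
  have hs : (((((3 : ℤ) + 1) / 2).negOnePow : ℤˣ) : ℤ) = 1 := by decide
  rw [hs] at he
  have hS : S2 11 = 10511899495407 / 16777216 := by
    decide +kernel
  have key := Pool.Agent.H677_SC.dvd_of_den (p := 11) (m := 2) (by norm_num) hr
    (d := 50331648)
    (N := 31535576851405) (by
      rw [← he, hS]
      norm_num)
  revert key
  norm_num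

end Pool.Agent.Results.MP_025f5d_nt.PartBFailsAtEleven
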